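import Pool.Agent.W2helper83.BT.Defs2

set_option autoImplicit false

/-!
# Project BT2, piece LOC: local analysis of two periodic points of `x ^ e + c`
-/

namespace Pool.Agent.W2helper92.BT2

open Pool.Agent.W2helper83.BT Polynomial

variable {K Γ : Type} [Field K] [LinearOrderedCommGroupWithZero Γ] (w : Valuation K Γ)

/-! ## roots of unity -/

omit [Field K] in
lemma one_of_pow {a : Γ} {n : ℕ} (hn : n ≠ 0) (h : a ^ n = 1) : a = 1 := by
  have h2 : a ^ n = 1 ^ n := by rw [h, one_pow]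
  exact (pow_left_inj₀ zero_le zero_le hn).1 h2

lemma val_root {d : ℕ} (hd : d ≠ 0) {z : K} (hz : z ^ d = 1) : w z = 1 :=
  one_of_pow hd (by rw [← map_pow, hz, map_one])

lemma val_one_sub {d : ℕ} (hd0 : d ≠ 0) (hd : w (d : K) = 1) {z : K} (hz : z ^ d = 1)
    (hz1 : z ≠ 1) : w (1 - z) = 1 := by
  have hwz : w z = 1 := val_root w hd0 hz
  have hle : w (1 - z) ≤ 1 := by
    refine (w.map_sub 1 z).trans ?_
    rw [map_one, hwz, max_self]
  refine le_antisymm hle ?_
  by_contra hlt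
  rw [not_le] at hlt
  have h0 : ∑ i ∈ Finset.range d, z ^ i = 0 := by
    have h1 := geom_sum_mul z d
    rw [hz, sub_self] at h1
    rcases mul_eq_zero.1 h1 with h | h
    · exact h
    · exact absurd (sub_eq_zero.1 h) hz1
  have h1 : (d : K) = ∑ i ∈ Finset.range d, (1 - z ^ i) := by
    rw [Finset.sum_sub_distrib, h0]
    simp
  have h2 : w (d : K) ≤ w (1 - z) := by
    rw [h1]
    refine w.map_sum_le fun i _ => ?_
    have h3 : 1 - z ^ i = (1 - z) * ∑ j ∈ Finset.range i, z ^ j := by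
      have := geom_sum_mul z i
      linear_combination this
    rw [h3, map_mul]
    have h4 : w (∑ j ∈ Finset.range i, z ^ j) ≤ 1 := by
      refine w.map_sum_le fun j _ => ?_
      rw [map_pow, hwz, one_pow]
    calc w (1 - z) * w (∑ j ∈ Finset.range i, z ^ j) ≤ w (1 - z) * 1 := mul_le_mul' le_rfl h4
      _ = w (1 - z) := mul_one _
  rw [hd] at h2
  exact absurd hlt (not_lt.2 h2)

lemma val_diff {d : ℕ} (hd0 : d ≠ 0) (hd : w (d : K) = 1) {a b : K} (ha : a ^ d = 1)
    (hb : b ^ d = 1) (hab : a ≠ b) : w (a - b) = 1 := by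
  have ha0 : a ≠ 0 := by
    rintro rfl
    rw [zero_pow hd0] at ha
    exact zero_ne_one ha
  have h1 : a - b = a * (1 - b / a) := by field_simp
  rw [h1, map_mul, val_root w hd0 ha, one_mul]
  refine val_one_sub w hd0 hd ?_ ?_
  · rw [div_pow, ha, hb, div_one]
  · intro h
    rw [div_eq_one_iff_eq ha0] at h
    exact hab h.symm

/-- the product formula -/
lemma val_prod {d : ℕ} (hd : 0 < d) {z : K} (hz : IsPrimitiveRoot z d) (x y : K) :
    w (x ^ d - y ^ d) = ∏ η ∈ nthRootsFinset d (1 : K), w (x - η * y) := by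
  rw [hz.pow_sub_pow_eq_prod_sub_mul x y hd, map_prod]

/-! ## orbits of two periodic points -/

section orbit

variable {f : K → K} {x y : K} {N : ℕ}

lemma it_mul (hx : f^[N] x = x) (k : ℕ) : f^[N * k] x = x := by
  induction k with
  | zero => rfl
  | succ k ih => rw [Nat.mul_succ, Function.iterate_add_apply, hx, ih]

lemma it_per (hx : f^[N] x = x) (k : ℕ) : f^[N] (f^[k] x) = f^[k] x := by
  rw [← Function.iterate_add_apply, Nat.add_comm, Function.iterate_add_apply, hx]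

lemma it_ne (hN : 0 < N) (hx : f^[N] x = x) (hy : f^[N] y = y) (hxy : x ≠ y) (k : ℕ) :
    f^[k] x ≠ f^[k] y := by
  intro h
  apply hxy
  have hk : k ≤ N * k := Nat.le_mul_of_pos_left k hN
  obtain ⟨j, hj⟩ := Nat.exists_eq_add_of_le' hk
  have h1 := it_mul hx k
  have h2 := it_mul hy k
  rw [hj, Function.iterate_add_apply] at h1 h2
  rw [← h1, ← h2, h]

end orbit

/-! ## bad reduction -/

section core

variable {w}

/-- one step -/
lemma step {d : ℕ} (hd : 2 ≤ d) (hwd : w (d : K) = 1) {z : K} (hz : IsPrimitiveRoot z d)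
    {x y : K} {W T b : Γ} (hW : W ≠ 0) (hx : w x = W) (hy : w y = W) (hT : T < 1) (hb : b ≤ W)
    (hprod : w (x ^ d - y ^ d) = b * T * W ^ (d - 1)) :
    ∃ η₀ ∈ nthRootsFinset d (1 : K), w (x - η₀ * y) = b * T ∧
      ∀ η ∈ nthRootsFinset d (1 : K), η ≠ η₀ → w (x - η * y) = W := by
  have hd0 : 0 < d := by omega
  have hmem : ∀ η : K, η ∈ nthRootsFinset d (1 : K) ↔ η ^ d = 1 := fun η =>
    mem_nthRootsFinset hd0 1
  have hWp : 0 < W := zero_lt_iff.2 hW
  have hcard := hz.card_nthRootsFinset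
  rw [val_prod w hd0 hz] at hprod
  have hlt : ∏ η ∈ nthRootsFinset d (1 : K), w (x - η * y) < W ^ d := by
    rw [hprod]
    have h1 : b * T ≤ W * T := mul_le_mul' hb le_rfl
    have h2 : W * T < W := by
      calc W * T < W * 1 := by gcongr
        _ = W := mul_one _
    have h3 : W ^ d = W * W ^ (d - 1) := by
      rw [← pow_succ', Nat.sub_add_cancel (by omega)]
    rw [h3]
    have h4 : 0 < W ^ (d - 1) := pow_pos hWp _
    have h5 : b * T < W := h1.trans_lt h2
    gcongr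
  obtain ⟨η₀, h0, h0lt⟩ : ∃ η₀ ∈ nthRootsFinset d (1 : K), w (x - η₀ * y) < W := by
    by_contra hcon
    push Not at hcon
    have h1 : ∏ _η ∈ nthRootsFinset d (1 : K), W ≤ ∏ η ∈ nthRootsFinset d (1 : K), w (x - η * y) :=
      Finset.prod_le_prod' hcon
    rw [Finset.prod_const, hcard] at h1
    exact absurd hlt (not_lt.2 h1)
  have hoth : ∀ η ∈ nthRootsFinset d (1 : K), η ≠ η₀ → w (x - η * y) = W := by
    intro η hη hne
    have h1 : x - η * y = (η₀ - η) * y + (x - η₀ * y) := by ring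
    have h2 : w ((η₀ - η) * y) = W := by
      rw [map_mul, val_diff w (by omega) hwd ((hmem _).1 h0) ((hmem _).1 hη) hne.symm, one_mul, hy]
    rw [h1, w.map_add_eq_of_lt_left (by rw [h2]; exact h0lt), h2]
  refine ⟨η₀, h0, ?_, hoth⟩
  classical
  rw [← Finset.mul_prod_erase _ _ h0] at hprod
  have h1 : ∏ η ∈ (nthRootsFinset d (1 : K)).erase η₀, w (x - η * y) = W ^ (d - 1) := by
    rw [Finset.prod_congr rfl (fun η hη => hoth η (Finset.mem_of_mem_erase hη)
      (Finset.ne_of_mem_erase hη)), Finset.prod_const, Finset.card_erase_of_mem h0, hcard]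
  rw [h1] at hprod
  exact mul_right_cancel₀ (pow_ne_zero _ hW) hprod

/-- the core of the case of bad reduction -/
lemma core {d : ℕ} (hd : 2 ≤ d) (hwd : w (d : K) = 1) {z : K} (hz : IsPrimitiveRoot z d)
    {f : K → K} {x y : K} {N : ℕ} (hN : 0 < N) (hx : f^[N] x = x) (hy : f^[N] y = y)
    (hxy : x ≠ y) {W : Γ} (hW : W ≠ 0) (hwx : ∀ k, w (f^[k] x) = W) (hwy : ∀ k, w (f^[k] y) = W)
    {g₀ : K} (hg₀ : g₀ ≠ 0) (hg1 : w g₀ < 1) {m : ℕ} (hm : m ≠ 0)
    (hprod : ∀ k, w ((f^[k] x) ^ d - (f^[k] y) ^ d) =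
      w (f^[k + 1] x - f^[k + 1] y) * (w g₀) ^ m * W ^ (d - 1))
    {ζ₁ ζ₂ : K} (h1 : ζ₁ ^ d = 1) (h1' : ζ₁ ≠ 1) (h2 : ζ₂ ^ d = 1) (h2' : ζ₂ ≠ 1) :
    ∃ g : K, g ≠ 0 ∧ w ((x - ζ₁ * y) / (x - ζ₂ * y)) = w g ^ m := by
  have hd0 : 0 < d := by omega
  have hmem : ∀ η : K, η ∈ nthRootsFinset d (1 : K) ↔ η ^ d = 1 := fun η =>
    mem_nthRootsFinset hd0 1
  set T : Γ := (w g₀) ^ m with hT
  have hT1 : T < 1 := pow_lt_one₀ zero_le hg1 hm
  have hble : ∀ k, w (f^[k] x - f^[k] y) ≤ W := fun k => by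
    refine (w.map_sub _ _).trans ?_
    rw [hwx, hwy, max_self]
  have hst := fun k => step hd hwd hz hW (hwx k) (hwy k) hT1 (hble (k + 1)) (hprod k)
  have hone : (1 : K) ∈ nthRootsFinset d (1 : K) := (hmem 1).2 (one_pow d)
  -- the distances are powers
  have hrec : ∀ k, w (f^[k] x - f^[k] y) = W ∨
      w (f^[k] x - f^[k] y) = w (f^[k + 1] x - f^[k + 1] y) * T := by
    intro k
    obtain ⟨η₀, h0, h3, h4⟩ := hst k
    by_cases h : η₀ = 1
    · right
      rw [← h3, h, one_mul]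
    · left
      have := h4 1 hone (fun h' => h h'.symm)
      rwa [one_mul] at this
  have hpow : ∀ k, ∃ j : ℕ, w (f^[k] x - f^[k] y) = T ^ j * W := by
    intro k
    by_contra hcon
    have hind : ∀ n, w (f^[k] x - f^[k] y) = w (f^[k + n] x - f^[k + n] y) * T ^ n ∧
        ¬ ∃ j : ℕ, w (f^[k + n] x - f^[k + n] y) = T ^ j * W := by
      intro n
      induction n with
      | zero => exact ⟨by simp, hcon⟩
      | succ n ih =>
        obtain ⟨i1, i2⟩ := ih
        rcases hrec (k + n) with h | h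
        · exact absurd ⟨0, by rw [h, pow_zero, one_mul]⟩ i2
        · refine ⟨?_, ?_⟩
          · rw [i1, h, pow_succ']
            rw [mul_assoc]
            rfl
          · rintro ⟨j, hj⟩
            apply i2
            refine ⟨j + 1, ?_⟩
            have hj' : w (f^[k + n + 1] x - f^[k + n + 1] y) = T ^ j * W := hj
            rw [h, hj', pow_succ, mul_right_comm]
    obtain ⟨i1, -⟩ := hind N
    have e1 : f^[k + N] x = f^[k] x := by
      rw [Function.iterate_add_apply, hx]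
    have e2 : f^[k + N] y = f^[k] y := by
      rw [Function.iterate_add_apply, hy]
    rw [e1, e2] at i1
    have hne : w (f^[k] x - f^[k] y) ≠ 0 :=
      (w.ne_zero_iff).2 (sub_ne_zero.2 (it_ne hN hx hy hxy k))
    have h5 : T ^ N = 1 := by
      have h6 : w (f^[k] x - f^[k] y) * T ^ N = w (f^[k] x - f^[k] y) * 1 := by
        rw [← i1, mul_one]
      exact mul_left_cancel₀ hne h6
    have h7 : T ^ N < 1 := pow_lt_one₀ zero_le hT1 hN.ne'
    exact absurd h5 h7.ne
  have hall : ∀ η : K, η ^ d = 1 → ∃ j : ℕ, w (x - η * y) = T ^ j * W := by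
    intro η hη
    obtain ⟨η₀, h0, h3, h4⟩ := hst 0
    by_cases h : η = η₀
    · obtain ⟨j, hj⟩ := hpow 1
      refine ⟨j + 1, ?_⟩
      have h3' : w (x - η₀ * y) = w (f^[1] x - f^[1] y) * T := h3
      rw [h, h3', hj, pow_succ, mul_right_comm]
    · refine ⟨0, ?_⟩
      have h4' : w (x - η * y) = W := h4 η ((hmem η).2 hη) h
      rw [h4', pow_zero, one_mul]
  obtain ⟨j1, hj1⟩ := hall ζ₁ h1
  obtain ⟨j2, hj2⟩ := hall ζ₂ h2
  refine ⟨g₀ ^ j1 / g₀ ^ j2, div_ne_zero (pow_ne_zero _ hg₀) (pow_ne_zero _ hg₀), ?_⟩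
  rw [map_div₀, hj1, hj2, mul_div_mul_right _ _ hW, map_div₀, map_pow, map_pow, div_pow, hT,
    ← pow_mul, ← pow_mul, ← pow_mul, ← pow_mul, Nat.mul_comm j1, Nat.mul_comm j2]

end core

/-! ## good reduction -/

section good

variable {w}

/-- the norm of a vector -/
def nn (w : Valuation K Γ) (P : K × K) : Γ := max (w P.1) (w P.2)

lemma nn_smul (t : K) (P : K × K) : nn w (t • P) = w t * nn w P := by
  unfold nn
  rw [Prod.smul_fst, Prod.smul_snd, smul_eq_mul, smul_eq_mul, map_mul, map_mul]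
  rcases le_total (w P.1) (w P.2) with h | h
  · rw [max_eq_right h, max_eq_right (mul_le_mul' le_rfl h)]
  · rw [max_eq_left h, max_eq_left (mul_le_mul' le_rfl h)]

lemma good {d : ℕ} (hd : 2 ≤ d) {z : K} (hz : IsPrimitiveRoot z d)
    {F : K × K → K × K}
    (hD : ∀ P Q, w ((F P).1 * (F Q).2 - (F Q).1 * (F P).2) =
      w ((P.1 * Q.2) ^ d - (Q.1 * P.2) ^ d))
    (hn : ∀ P, nn w (F P) = (nn w P) ^ d) {N : ℕ} (hN : 0 < N) {P Q : K × K}
    (hPQ : P.1 * Q.2 - Q.1 * P.2 ≠ 0) {t s : K} (ht : t ≠ 0) (hs : s ≠ 0)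
    (hP : F^[N] P = t • P) (hQ : F^[N] Q = s • Q) {ζ : K} (h1 : ζ ^ d = 1) (h1' : ζ ≠ 1) :
    w (P.1 * Q.2 - ζ * (Q.1 * P.2)) = nn w P * nn w Q := by
  classical
  have hd0 : 0 < d := by omega
  have hmem : ∀ η : K, η ∈ nthRootsFinset d (1 : K) ↔ η ^ d = 1 := fun η =>
    mem_nthRootsFinset hd0 1
  have hone : (1 : K) ∈ nthRootsFinset d (1 : K) := (hmem 1).2 (one_pow d)
  have hnP : nn w P ≠ 0 := by
    intro h
    unfold nn at h
    have a1 : w P.1 = 0 := le_antisymm (h ▸ le_max_left _ _) zero_le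
    have a2 : w P.2 = 0 := le_antisymm (h ▸ le_max_right _ _) zero_le
    rw [w.zero_iff] at a1 a2
    apply hPQ
    rw [a1, a2]
    ring
  have hnQ : nn w Q ≠ 0 := by
    intro h
    unfold nn at h
    have a1 : w Q.1 = 0 := le_antisymm (h ▸ le_max_left _ _) zero_le
    have a2 : w Q.2 = 0 := le_antisymm (h ▸ le_max_right _ _) zero_le
    rw [w.zero_iff] at a1 a2
    apply hPQ
    rw [a1, a2]
    ring
  -- general facts on one pair
  set δ : K × K → K × K → Γ := fun P Q => w (P.1 * Q.2 - Q.1 * P.2) / (nn w P * nn w Q) with hδ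
  have hfac : ∀ (P Q : K × K), nn w P ≠ 0 → nn w Q ≠ 0 → ∀ η ∈ nthRootsFinset d (1 : K),
      w (P.1 * Q.2 - η * (Q.1 * P.2)) / (nn w P * nn w Q) ≤ 1 := by
    intro P Q hP hQ η hη
    have h0 : 0 < nn w P * nn w Q := zero_lt_iff.2 (mul_ne_zero hP hQ)
    rw [div_le_one₀ h0]
    refine (w.map_sub _ _).trans ?_
    rw [map_mul, map_mul, map_mul, val_root w (by omega) ((hmem η).1 hη), one_mul]
    apply max_le
    · exact mul_le_mul' (le_max_left _ _) (le_max_right _ _)
    · rw [mul_comm]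
      exact mul_le_mul' (le_max_right _ _) (le_max_left _ _)
  have hstep : ∀ (P Q : K × K), nn w P ≠ 0 → nn w Q ≠ 0 → δ (F P) (F Q) = δ P Q *
      ∏ η ∈ (nthRootsFinset d (1 : K)).erase 1,
        w (P.1 * Q.2 - η * (Q.1 * P.2)) / (nn w P * nn w Q) := by
    intro P Q hP hQ
    have e1 : δ (F P) (F Q) = ∏ η ∈ nthRootsFinset d (1 : K),
        w (P.1 * Q.2 - η * (Q.1 * P.2)) / (nn w P * nn w Q) := by
      simp only [hδ]
      rw [hD, hn, hn, Finset.prod_div_distrib, Finset.prod_const, hz.card_nthRootsFinset,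
        val_prod w hd0 hz, mul_pow]
    rw [e1, ← Finset.mul_prod_erase _ _ hone]
    simp only [hδ, one_mul]
  have hle : ∀ (P Q : K × K), nn w P ≠ 0 → nn w Q ≠ 0 → δ (F P) (F Q) ≤ δ P Q := by
    intro P Q hP hQ
    rw [hstep P Q hP hQ]
    calc _ ≤ δ P Q * 1 := mul_le_mul' le_rfl (Finset.prod_le_one' fun η hη =>
          hfac P Q hP hQ η (Finset.mem_of_mem_erase hη))
      _ = δ P Q := mul_one _
  have hnit : ∀ (R : K × K), nn w R ≠ 0 → ∀ k, nn w (F^[k] R) ≠ 0 := by
    intro R hR k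
    induction k with
    | zero => exact hR
    | succ k ih =>
      rw [Function.iterate_succ_apply', hn]
      exact pow_ne_zero _ ih
  have hmono : ∀ k, δ (F^[k + 1] P) (F^[k + 1] Q) ≤ δ (F P) (F Q) := by
    intro k
    induction k with
    | zero => exact le_rfl
    | succ k ih =>
      rw [Function.iterate_succ_apply' F (k + 1), Function.iterate_succ_apply' F (k + 1)]
      exact (hle _ _ (hnit P hnP _) (hnit Q hnQ _)).trans ih
  have hret : δ (F^[N] P) (F^[N] Q) = δ P Q := by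
    simp only [hδ]
    rw [hP, hQ, nn_smul, nn_smul, Prod.smul_fst, Prod.smul_snd, Prod.smul_fst, Prod.smul_snd,
      smul_eq_mul, smul_eq_mul, smul_eq_mul, smul_eq_mul]
    have e1 : t * P.1 * (s * Q.2) - s * Q.1 * (t * P.2) = t * s * (P.1 * Q.2 - Q.1 * P.2) := by
      ring
    have e2 : w t * nn w P * (w s * nn w Q) = w t * w s * (nn w P * nn w Q) := by
      rw [mul_mul_mul_comm]
    rw [e1, e2, map_mul, map_mul, mul_div_mul_left _ _ (mul_ne_zero ((w.ne_zero_iff).2 ht)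
      ((w.ne_zero_iff).2 hs))]
  have hge : δ P Q ≤ δ (F P) (F Q) := by
    have := hmono (N - 1)
    rw [Nat.sub_add_cancel hN, hret] at this
    exact this
  have heq : δ (F P) (F Q) = δ P Q := le_antisymm (hle P Q hnP hnQ) hge
  have hδ0 : δ P Q ≠ 0 := by
    simp only [hδ]
    exact div_ne_zero ((w.ne_zero_iff).2 hPQ) (mul_ne_zero hnP hnQ)
  rw [hstep P Q hnP hnQ] at heq
  have hprod1 : ∏ η ∈ (nthRootsFinset d (1 : K)).erase 1,
        w (P.1 * Q.2 - η * (Q.1 * P.2)) / (nn w P * nn w Q) = 1 := by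
    refine mul_left_cancel₀ hδ0 ?_
    rw [heq, mul_one]
  have h3 := (Finset.prod_eq_one_iff_of_le_one' (fun η hη =>
    hfac P Q hnP hnQ η (Finset.mem_of_mem_erase hη))).1 hprod1 ζ
    (Finset.mem_erase.2 ⟨h1', (hmem ζ).2 h1⟩)
  rw [div_eq_one_iff_eq (mul_ne_zero hnP hnQ)] at h3
  exact h3

end good

/-! ## positive exponents -/

section pos

variable {w}

lemma fz_nat (d : ℕ) (c x : K) : fz (d : ℤ) c x = x ^ d + c := by
  unfold fz
  rw [zpow_natCast]

lemma nn_G {d : ℕ} {c : K} (hd : d ≠ 0) (hc : w c ≤ 1) (P : K × K) :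
    nn w (P.1 ^ d + c * P.2 ^ d, P.2 ^ d) = nn w P ^ d := by
  unfold nn
  simp only
  rcases le_or_gt (w P.1) (w P.2) with h | h
  · rw [max_eq_right h, map_pow w P.2, max_eq_right]
    refine (w.map_add _ _).trans (max_le ?_ ?_)
    · rw [map_pow]
      exact pow_le_pow_left' h d
    · rw [map_mul, map_pow]
      calc w c * w P.2 ^ d ≤ 1 * w P.2 ^ d := mul_le_mul' hc le_rfl
        _ = w P.2 ^ d := one_mul _
  · have h1 : w (c * P.2 ^ d) < w (P.1 ^ d) := by
      rw [map_mul, map_pow, map_pow]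
      calc w c * w P.2 ^ d ≤ 1 * w P.2 ^ d := mul_le_mul' hc le_rfl
        _ = w P.2 ^ d := one_mul _
        _ < w P.1 ^ d := pow_lt_pow_left₀ h zero_le hd
    rw [max_eq_left h.le, w.map_add_eq_of_lt_left h1, map_pow, map_pow, max_eq_left]
    exact pow_le_pow_left' h.le d

/-- bad reduction, positive exponent: the absolute value of a periodic point -/
lemma bad_pos {d : ℕ} (hd : 2 ≤ d) {c : K} (hc : 1 < w c) {z : K} {n : ℕ} (hn : 0 < n)
    (hz : (fz (d : ℤ) c)^[n] z = z) : w z ^ d = w c := by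
  set f : K → K := fz (d : ℤ) c with hf
  have hS : ∀ z, w c < w z ^ d → w z < w (f z) ∧ w c < w (f z) ^ d := by
    intro z hz
    have h1 : w (f z) = w z ^ d := by
      rw [hf, fz_nat, w.map_add_eq_of_lt_left (by rwa [map_pow]), map_pow]
    have hz1 : 1 < w z := by
      by_contra hcon
      rw [not_lt] at hcon
      have h2 : w z ^ d ≤ 1 := pow_le_one₀ zero_le hcon
      exact absurd (hc.trans hz) (not_lt.2 h2)
    have h3 : w z < w z ^ d := by
      calc w z = w z ^ 1 := (pow_one _).symm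
        _ < w z ^ d := pow_lt_pow_right₀ hz1 (by omega)
    refine ⟨by rw [h1]; exact h3, ?_⟩
    rw [h1]
    have h4 : w z ^ d < (w z ^ d) ^ d := by
      calc w z ^ d = (w z ^ d) ^ 1 := (pow_one _).symm
        _ < (w z ^ d) ^ d := pow_lt_pow_right₀ (hc.trans hz) (by omega)
    exact hz.trans h4
  have hinc : ∀ z, w c < w z ^ d → ∀ k, w c < w (f^[k + 1] z) ^ d ∧ w z < w (f^[k + 1] z) := by
    intro z hz k
    induction k with
    | zero => exact ⟨(hS z hz).2, (hS z hz).1⟩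
    | succ k ih =>
      rw [Function.iterate_succ_apply']
      exact ⟨(hS _ ih.1).2, ih.2.trans (hS _ ih.1).1⟩
  have hnot : ∀ z, f^[n] z = z → ¬ w c < w z ^ d := by
    intro z hz hlt
    have := (hinc z hlt (n - 1)).2
    rw [Nat.sub_add_cancel hn, hz] at this
    exact absurd this (lt_irrefl _)
  rcases lt_trichotomy (w z ^ d) (w c) with h | h | h
  · exfalso
    have h1 : w (f z) = w c := by
      rw [hf, fz_nat, w.map_add_eq_of_lt_right (by rwa [map_pow])]
    apply hnot (f z)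
    · have := it_per hz 1
      exact this
    · rw [h1]
      calc w c = w c ^ 1 := (pow_one _).symm
        _ < w c ^ d := pow_lt_pow_right₀ hc (by omega)
  · exact h
  · exact absurd h (hnot z hz)

theorem loc_pos {d : ℕ} (hd : 2 ≤ d) (hwd : w (d : K) = 1) {z : K} (hz : IsPrimitiveRoot z d)
    {c x y ζ₁ ζ₂ : K} {N : ℕ} (hN : 0 < N) (hx : (fz (d : ℤ) c)^[N] x = x)
    (hy : (fz (d : ℤ) c)^[N] y = y) (hxy : x ≠ y) (h1 : ζ₁ ^ d = 1) (h1' : ζ₁ ≠ 1)
    (h2 : ζ₂ ^ d = 1) (h2' : ζ₂ ≠ 1) (hne : x - ζ₁ * y ≠ 0) :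
    ∃ g : K, g ≠ 0 ∧ w ((x - ζ₁ * y) / (x - ζ₂ * y)) = w g ^ (d - 1) := by
  have hd0 : 0 < d := by omega
  rcases le_or_gt (w c) 1 with hc | hc
  · -- good reduction
    set F : K × K → K × K := fun P => (P.1 ^ d + c * P.2 ^ d, P.2 ^ d) with hF
    have hit : ∀ (u : K) (k : ℕ), F^[k] (u, 1) = ((fz (d : ℤ) c)^[k] u, 1) := by
      intro u k
      induction k with
      | zero => rfl
      | succ k ih =>
        rw [Function.iterate_succ_apply', Function.iterate_succ_apply', ih, fz_nat]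
        simp [hF]
    have hg : ∀ ζ : K, ζ ^ d = 1 → ζ ≠ 1 → w (x - ζ * y) = nn w (x, 1) * nn w (y, 1) := by
      intro ζ hζ hζ1
      have := good (w := w) hd hz (F := F)
        (by
          intro P Q
          congr 1
          simp only [hF]
          rw [mul_pow, mul_pow]
          ring)
        (fun P => nn_G (by omega) hc P) hN (P := (x, 1)) (Q := (y, 1)) (t := 1) (s := 1)
        (by simpa using sub_ne_zero.2 hxy) one_ne_zero one_ne_zero
        (by rw [hit, hx, one_smul]) (by rw [hit, hy, one_smul]) hζ hζ1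
      simpa using this
    refine ⟨1, one_ne_zero, ?_⟩
    rw [map_div₀, hg ζ₁ h1 h1', hg ζ₂ h2 h2', map_one, one_pow, div_self]
    rw [← hg ζ₁ h1 h1']
    exact (w.ne_zero_iff).2 hne
  · -- bad reduction
    have hwx0 : w x ^ d = w c := bad_pos hd hc hN hx
    have hwx : ∀ k, w ((fz (d : ℤ) c)^[k] x) = w x := by
      intro k
      have := bad_pos hd hc hN (it_per hx k)
      rw [← hwx0] at this
      exact (pow_left_inj₀ zero_le zero_le hd0.ne').1 this
    have hwy : ∀ k, w ((fz (d : ℤ) c)^[k] y) = w x := by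
      intro k
      have := bad_pos hd hc hN (it_per hy k)
      rw [← hwx0] at this
      exact (pow_left_inj₀ zero_le zero_le hd0.ne').1 this
    have hW1 : 1 < w x := by
      by_contra hcon
      rw [not_lt] at hcon
      have h3 : w x ^ d ≤ 1 := pow_le_one₀ zero_le hcon
      rw [hwx0] at h3
      exact absurd hc (not_lt.2 h3)
    have hW0 : w x ≠ 0 := (zero_lt_one.trans hW1).ne'
    have hx0 : x ≠ 0 := (w.ne_zero_iff).1 hW0
    refine core hd hwd hz hN hx hy hxy hW0 hwx hwy (g₀ := x⁻¹) (inv_ne_zero hx0) ?_ (m := d - 1)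
      (by omega) ?_ h1 h1' h2 h2'
    · rw [map_inv₀]
      exact inv_lt_one_of_one_lt₀ hW1
    · intro k
      rw [Function.iterate_succ_apply', Function.iterate_succ_apply', fz_nat, fz_nat,
        add_sub_add_right_eq_sub, map_inv₀, mul_assoc, ← mul_pow, inv_mul_cancel₀ hW0, one_pow,
        mul_one]

end pos

/-! ## negative exponents -/

section neg

variable {w}

lemma fz_neg (d : ℕ) (c x : K) : fz (-(d : ℤ)) c x = (x ^ d)⁻¹ + c := by
  unfold fz
  rw [zpow_neg, zpow_natCast]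

/-- good reduction, negative exponent: the homogeneous map -/
def FN (d : ℕ) (c : K) (P : K × K) : K × K := (P.2 ^ d + c * P.1 ^ d, P.1 ^ d)

lemma FN_smul (d : ℕ) (c t : K) (P : K × K) : FN d c (t • P) = t ^ d • FN d c P := by
  unfold FN
  ext
  · simp only [Prod.smul_fst, Prod.smul_snd, smul_eq_mul, mul_pow]
    ring
  · simp only [Prod.smul_fst, Prod.smul_snd, smul_eq_mul, mul_pow]

lemma FN_it_smul (d : ℕ) (c : K) (k : ℕ) {t : K} (ht : t ≠ 0) (P : K × K) :
    ∃ t' : K, t' ≠ 0 ∧ (FN d c)^[k] (t • P) = t' • (FN d c)^[k] P := by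
  induction k with
  | zero => exact ⟨t, ht, rfl⟩
  | succ k ih =>
    obtain ⟨t', ht', h⟩ := ih
    exact ⟨t' ^ d, pow_ne_zero _ ht', by
      rw [Function.iterate_succ_apply', Function.iterate_succ_apply', h, FN_smul]⟩

lemma FN_step {d : ℕ} (hd : d ≠ 0) (c z : K) : ∃ k : ℕ, 1 ≤ k ∧ ∃ t : K, t ≠ 0 ∧
    (FN d c)^[k] (z, 1) = t • (fz (-(d : ℤ)) c z, (1 : K)) := by
  by_cases hz : z = 0
  · refine ⟨2, by norm_num, 1, one_ne_zero, ?_⟩
    rw [one_smul, fz_neg, hz]
    simp [FN, hd]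
  · refine ⟨1, le_rfl, z ^ d, pow_ne_zero _ hz, ?_⟩
    have : z ^ d ≠ 0 := pow_ne_zero _ hz
    rw [fz_neg]
    ext
    · simp only [Function.iterate_one, FN, Prod.smul_fst, smul_eq_mul]
      field_simp
      simp
    · simp [FN]

lemma FN_it {d : ℕ} (hd : d ≠ 0) (c x : K) (n : ℕ) : ∃ k : ℕ, n ≤ k ∧ ∃ t : K, t ≠ 0 ∧
    (FN d c)^[k] (x, 1) = t • ((fz (-(d : ℤ)) c)^[n] x, (1 : K)) := by
  induction n with
  | zero => exact ⟨0, le_rfl, 1, one_ne_zero, by rw [one_smul]; rfl⟩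
  | succ n ih =>
    obtain ⟨k, hk, t, ht, h⟩ := ih
    obtain ⟨k', hk', t', ht', h'⟩ := FN_step hd c ((fz (-(d : ℤ)) c)^[n] x)
    obtain ⟨s, hs, h''⟩ := FN_it_smul d c k' ht ((fz (-(d : ℤ)) c)^[n] x, (1 : K))
    refine ⟨k' + k, by omega, s * t', mul_ne_zero hs ht', ?_⟩
    rw [Function.iterate_add_apply, h, h'', h', smul_smul, Function.iterate_succ_apply']

lemma FN_mul {d : ℕ} {c : K} {P : K × K} {k : ℕ} {t : K} (ht : t ≠ 0)
    (h : (FN d c)^[k] P = t • P) (j : ℕ) : ∃ s : K, s ≠ 0 ∧ (FN d c)^[k * j] P = s • P := by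
  induction j with
  | zero => exact ⟨1, one_ne_zero, by rw [one_smul]; rfl⟩
  | succ j ih =>
    obtain ⟨s, hs, h'⟩ := ih
    obtain ⟨t', ht', h''⟩ := FN_it_smul d c (k * j) ht P
    refine ⟨t' * s, mul_ne_zero ht' hs, ?_⟩
    rw [Nat.mul_succ, Function.iterate_add_apply, h, h'', h', smul_smul]

lemma inv_lt_of {a b : Γ} (ha : a ≠ 0) (h : 1 < a * b) : a⁻¹ < b := by
  have ha' : 0 < a⁻¹ := zero_lt_iff.2 (inv_ne_zero ha)
  calc a⁻¹ = a⁻¹ * 1 := (mul_one _).symm
    _ < a⁻¹ * (a * b) := by gcongr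
    _ = b := inv_mul_cancel_left₀ ha b

lemma lt_inv_of {a b : Γ} (ha : a ≠ 0) (h : a * b < 1) : b < a⁻¹ := by
  have ha' : 0 < a⁻¹ := zero_lt_iff.2 (inv_ne_zero ha)
  calc b = a⁻¹ * (a * b) := (inv_mul_cancel_left₀ ha b).symm
    _ < a⁻¹ * 1 := by gcongr
    _ = a⁻¹ := mul_one _

/-- the dichotomy for bad reduction -/
lemma bad_neg {d : ℕ} (hd : 2 ≤ d) {c : K} (hc : 1 < w c) {z : K} {n : ℕ} (hn : 0 < n)
    (hz : (fz (-(d : ℤ)) c)^[n] z = z) :
    (∀ k, w ((fz (-(d : ℤ)) c)^[k] z) = w c) ∨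
      ∀ k, w ((fz (-(d : ℤ)) c)^[k] z) ^ d * w c = 1 := by
  set f : K → K := fz (-(d : ℤ)) c with hf
  have hbig : ∀ a : Γ, w c ≤ a → 1 < a ^ d * w c := by
    intro a ha
    have h1 : 1 < a := hc.trans_le ha
    calc (1 : Γ) < a ^ d := one_lt_pow₀ h1 (by omega)
      _ = a ^ d * 1 := (mul_one _).symm
      _ ≤ a ^ d * w c := mul_le_mul' le_rfl hc.le
  have hS1 : ∀ z, 1 < w z ^ d * w c → w (f z) = w c := by
    intro z hz
    have hz0 : w z ^ d ≠ 0 := by
      intro h
      rw [h, zero_mul] at hz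
      exact absurd hz (not_lt.2 zero_le)
    rw [hf, fz_neg, w.map_add_eq_of_lt_right]
    rw [map_inv₀, map_pow]
    exact inv_lt_of hz0 hz
  have hS2 : ∀ z, 1 < w z ^ d * w c → 1 < w (f z) ^ d * w c := by
    intro z hz
    rw [hS1 z hz]
    exact hbig _ le_rfl
  have hS3 : ∀ z, w z ^ d * w c < 1 → 1 < w (f z) ^ d * w c := by
    intro z hz
    by_cases hz0 : z = 0
    · have : f z = c := by
        rw [hf, fz_neg, hz0, zero_pow (by omega), inv_zero, zero_add]
      rw [this]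
      exact hbig _ le_rfl
    · have hz1 : w z ^ d ≠ 0 := pow_ne_zero _ ((w.ne_zero_iff).2 hz0)
      have h1 : w c < (w z ^ d)⁻¹ := lt_inv_of hz1 hz
      have h2 : w (f z) = (w z ^ d)⁻¹ := by
        rw [hf, fz_neg, w.map_add_eq_of_lt_left, map_inv₀, map_pow]
        rw [map_inv₀, map_pow]
        exact h1
      rw [h2]
      exact hbig _ h1.le
  have hit : ∀ z, 1 < w z ^ d * w c → ∀ k, 1 < w (f^[k] z) ^ d * w c := by
    intro z hz k
    induction k with
    | zero => exact hz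
    | succ k ih =>
      rw [Function.iterate_succ_apply']
      exact hS2 _ ih
  -- periodic points
  have hP1 : ∀ z, f^[n] z = z → 1 < w z ^ d * w c → w z = w c := by
    intro z hz h
    have h1 := hS1 _ (hit z h (n - 1))
    have h2 : f (f^[n - 1] z) = z := by
      rw [← Function.iterate_succ_apply' f (n - 1) z, Nat.succ_eq_add_one, Nat.sub_add_cancel hn,
        hz]
    rw [h2] at h1
    exact h1
  have hP2 : ∀ z, f^[n] z = z → ¬ 1 < w z ^ d * w c → w z ^ d * w c = 1 := by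
    intro z hz h
    rcases lt_or_eq_of_le (not_lt.1 h) with h1 | h1
    · exfalso
      apply h
      have h2 := hit _ (hS3 z h1) (n - 1)
      rw [← Function.iterate_succ_apply, Nat.succ_eq_add_one, Nat.sub_add_cancel hn, hz] at h2
      exact h2
    · exact h1
  by_cases h : 1 < w z ^ d * w c
  · left
    intro k
    exact hP1 _ (it_per hz k) (hit z h k)
  · right
    intro k
    refine hP2 _ (it_per hz k) ?_
    intro h1
    apply h
    have hk : k ≤ n * k := Nat.le_mul_of_pos_left k hn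
    have h2 := hit _ h1 (n * k - k)
    rw [← Function.iterate_add_apply, Nat.sub_add_cancel hk, it_mul hz k] at h2
    exact h2

/-- contraction near `c` -/
lemma contract {d : ℕ} (hd : 2 ≤ d) {c : K} (hc : 1 < w c) {x y : K} (hx : w x = w c)
    (hy : w y = w c) (hxy : x ≠ y) :
    w (fz (-(d : ℤ)) c x - fz (-(d : ℤ)) c y) < w (x - y) := by
  have hC0 : w c ≠ 0 := (zero_lt_one.trans hc).ne'
  have hx0 : x ≠ 0 := (w.ne_zero_iff).1 (by rw [hx]; exact hC0)
  have hy0 : y ≠ 0 := (w.ne_zero_iff).1 (by rw [hy]; exact hC0)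
  have hxd : x ^ d ≠ 0 := pow_ne_zero _ hx0
  have hyd : y ^ d ≠ 0 := pow_ne_zero _ hy0
  have e1 : fz (-(d : ℤ)) c x - fz (-(d : ℤ)) c y =
      (∑ i ∈ Finset.range d, x ^ i * y ^ (d - 1 - i)) * (y - x) / (x ^ d * y ^ d) := by
    rw [fz_neg, fz_neg]
    have h1 := (Commute.all x y).geom_sum₂_mul d
    have h2 : (∑ i ∈ Finset.range d, x ^ i * y ^ (d - 1 - i)) * (y - x) = y ^ d - x ^ d := by
      linear_combination -h1
    rw [h2]
    field_simp
    ring
  have hsum : w (∑ i ∈ Finset.range d, x ^ i * y ^ (d - 1 - i)) ≤ w c ^ (d - 1) := by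
    refine w.map_sum_le fun i hi => ?_
    rw [Finset.mem_range] at hi
    rw [map_mul, map_pow, map_pow, hx, hy, ← pow_add]
    have : i + (d - 1 - i) = d - 1 := by omega
    rw [this]
  have hxy' : 0 < w (x - y) := zero_lt_iff.2 ((w.ne_zero_iff).2 (sub_ne_zero.2 hxy))
  rw [e1, map_div₀, map_mul, map_mul, map_pow, map_pow, hx, hy, w.map_sub_swap y x]
  have hpos : 0 < w c ^ d * w c ^ d := zero_lt_iff.2 (mul_ne_zero (pow_ne_zero _ hC0)
    (pow_ne_zero _ hC0))
  rw [div_lt_iff₀ hpos]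
  calc w (∑ i ∈ Finset.range d, x ^ i * y ^ (d - 1 - i)) * w (x - y)
      ≤ w c ^ (d - 1) * w (x - y) := mul_le_mul' hsum le_rfl
    _ < w c ^ (d + d) * w (x - y) := by
        have : w c ^ (d - 1) < w c ^ (d + d) := pow_lt_pow_right₀ hc (by omega)
        gcongr
    _ = w (x - y) * (w c ^ d * w c ^ d) := by rw [pow_add, mul_comm]

theorem loc_neg {d : ℕ} (hd : 2 ≤ d) (hwd : w (d : K) = 1) {z : K} (hz : IsPrimitiveRoot z d)
    {c x y ζ₁ ζ₂ : K} {N : ℕ} (hN : 0 < N) (hx : (fz (-(d : ℤ)) c)^[N] x = x)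
    (hy : (fz (-(d : ℤ)) c)^[N] y = y) (hxy : x ≠ y) (h1 : ζ₁ ^ d = 1) (h1' : ζ₁ ≠ 1)
    (h2 : ζ₂ ^ d = 1) (h2' : ζ₂ ≠ 1) (hne : x - ζ₁ * y ≠ 0) :
    ∃ g : K, g ≠ 0 ∧ w ((x - ζ₁ * y) / (x - ζ₂ * y)) = w g ^ (d + 1) := by
  have hd0 : 0 < d := by omega
  rcases le_or_gt (w c) 1 with hc | hc
  · -- good reduction
    obtain ⟨k1, hk1, t1, ht1, e1⟩ := FN_it (by omega : d ≠ 0) c x N
    obtain ⟨k2, hk2, t2, ht2, e2⟩ := FN_it (by omega : d ≠ 0) c y N
    rw [hx] at e1
    rw [hy] at e2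
    obtain ⟨s1, hs1, e1'⟩ := FN_mul ht1 e1 k2
    obtain ⟨s2, hs2, e2'⟩ := FN_mul ht2 e2 k1
    rw [Nat.mul_comm k2 k1] at e2'
    have hg : ∀ ζ : K, ζ ^ d = 1 → ζ ≠ 1 → w (x - ζ * y) = nn w (x, 1) * nn w (y, 1) := by
      intro ζ hζ hζ1
      have := good (w := w) hd hz (F := FN d c)
        (by
          intro P Q
          have : (FN d c P).1 * (FN d c Q).2 - (FN d c Q).1 * (FN d c P).2 =
              -((P.1 * Q.2) ^ d - (Q.1 * P.2) ^ d) := by
            simp only [FN]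
            rw [mul_pow, mul_pow]
            ring
          rw [this, Valuation.map_neg])
        (fun P => by
          have := nn_G (w := w) (c := c) (by omega : d ≠ 0) hc (P.2, P.1)
          unfold FN
          simp only at this
          rw [this]
          unfold nn
          simp only
          rw [max_comm]) (Nat.mul_pos (hN.trans_le hk1) (hN.trans_le hk2))
        (P := (x, 1)) (Q := (y, 1)) (t := s1) (s := s2)
        (by simpa using sub_ne_zero.2 hxy) hs1 hs2 e1' e2' hζ hζ1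
      simpa using this
    refine ⟨1, one_ne_zero, ?_⟩
    rw [map_div₀, hg ζ₁ h1 h1', hg ζ₂ h2 h2', map_one, one_pow, div_self]
    rw [← hg ζ₁ h1 h1']
    exact (w.ne_zero_iff).2 hne
  · -- bad reduction
    have hsmall : ∀ a : Γ, a ^ d * w c = 1 → a < 1 := by
      intro a ha
      by_contra hcon
      rw [not_lt] at hcon
      have h3 : 1 < a ^ d * w c := by
        calc (1 : Γ) < w c := hc
          _ = 1 * w c := (one_mul _).symm
          _ ≤ a ^ d * w c := mul_le_mul' (one_le_pow₀ hcon) le_rfl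
      rw [ha] at h3
      exact absurd h3 (lt_irrefl _)
    rcases bad_neg hd hc hN hx with hX | hX <;> rcases bad_neg hd hc hN hy with hY | hY
    · exfalso
      have hdec : ∀ k, w ((fz (-(d : ℤ)) c)^[k + 1] x - (fz (-(d : ℤ)) c)^[k + 1] y) <
          w (x - y) := by
        intro k
        induction k with
        | zero => exact contract hd hc (hX 0) (hY 0) hxy
        | succ k ih =>
          rw [Function.iterate_succ_apply' _ (k + 1), Function.iterate_succ_apply' _ (k + 1)]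
          exact (contract hd hc (hX _) (hY _) (it_ne hN hx hy hxy _)).trans ih
      have := hdec (N - 1)
      rw [Nat.sub_add_cancel hN, hx, hy] at this
      exact absurd this (lt_irrefl _)
    · have hx1 : w x = w c := hX 0
      have hy1 : w y < 1 := hsmall _ (hY 0)
      have hval : ∀ ζ : K, ζ ^ d = 1 → w (x - ζ * y) = w x := by
        intro ζ hζ
        rw [sub_eq_add_neg, w.map_add_eq_of_lt_left]
        rw [Valuation.map_neg, map_mul, val_root w hd0.ne' hζ, one_mul, hx1]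
        exact hy1.trans hc
      refine ⟨1, one_ne_zero, ?_⟩
      rw [map_div₀, hval ζ₁ h1, hval ζ₂ h2, map_one, one_pow, div_self]
      rw [← hval ζ₁ h1]
      exact (w.ne_zero_iff).2 hne
    · have hy1 : w y = w c := hY 0
      have hx1 : w x < 1 := hsmall _ (hX 0)
      have hval : ∀ ζ : K, ζ ^ d = 1 → w (x - ζ * y) = w y := by
        intro ζ hζ
        have e : w (-(ζ * y)) = w y := by
          rw [Valuation.map_neg, map_mul, val_root w hd0.ne' hζ, one_mul]
        rw [sub_eq_add_neg, w.map_add_eq_of_lt_right, e]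
        rw [e, hy1]
        exact hx1.trans hc
      refine ⟨1, one_ne_zero, ?_⟩
      rw [map_div₀, hval ζ₁ h1, hval ζ₂ h2, map_one, one_pow, div_self]
      rw [← hval ζ₁ h1]
      exact (w.ne_zero_iff).2 hne
    · have hC0 : w c ≠ 0 := (zero_lt_one.trans hc).ne'
      have hx0 : w x ^ d * w c = 1 := hX 0
      have heq : ∀ a : Γ, a ^ d * w c = 1 → a = w x := by
        intro a ha
        rw [← hx0] at ha
        exact (pow_left_inj₀ zero_le zero_le hd0.ne').1 (mul_right_cancel₀ hC0 ha)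
      have hW1 : w x < 1 := hsmall _ hx0
      have hW0 : w x ≠ 0 := by
        intro h
        rw [h, zero_pow hd0.ne', zero_mul] at hx0
        exact zero_ne_one hx0
      have hwx : ∀ k, w ((fz (-(d : ℤ)) c)^[k] x) = w x := fun k => heq _ (hX k)
      have hwy : ∀ k, w ((fz (-(d : ℤ)) c)^[k] y) = w x := fun k => heq _ (hY k)
      refine core hd hwd hz hN hx hy hxy hW0 hwx hwy (g₀ := x) ((w.ne_zero_iff).1 hW0) hW1
        (m := d + 1) (by omega) ?_ h1 h1' h2 h2'
      intro k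
      set u := (fz (-(d : ℤ)) c)^[k] x with hu
      set v := (fz (-(d : ℤ)) c)^[k] y with hv
      have hu0 : u ≠ 0 := (w.ne_zero_iff).1 (by rw [hwx k]; exact hW0)
      have hv0 : v ≠ 0 := (w.ne_zero_iff).1 (by rw [hwy k]; exact hW0)
      have e1 : u ^ d - v ^ d = -((fz (-(d : ℤ)) c u - fz (-(d : ℤ)) c v) * (u ^ d * v ^ d)) := by
        rw [fz_neg, fz_neg]
        have hu1 : u ^ d ≠ 0 := pow_ne_zero _ hu0
        have hv1 : v ^ d ≠ 0 := pow_ne_zero _ hv0
        field_simp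
        ring
      rw [Function.iterate_succ_apply', Function.iterate_succ_apply', ← hu, ← hv, e1,
        Valuation.map_neg, map_mul, map_mul, map_pow, map_pow, hwx k, hwy k, mul_assoc, ← pow_add,
        ← pow_add]
      congr 2
      omega

end neg

theorem loc : LOC := by
  intro K Γ _ _ w d e c x y ζ₁ ζ₂ hd he hwd hz hx hy hxy h1 h1' h2 h2' hne _
  obtain ⟨z, hz⟩ := hz
  obtain ⟨n1, hn1, hx⟩ := hx
  obtain ⟨n2, hn2, hy⟩ := hy
  have hx' := it_mul hx n2
  have hy' := it_mul hy n1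
  rw [Nat.mul_comm n2 n1] at hy'
  have hN : 0 < n1 * n2 := Nat.mul_pos hn1 hn2
  rcases he with rfl | rfl
  · have hm : ((d : ℤ) - 1).natAbs = d - 1 := by omega
    rw [hm]
    exact loc_pos hd hwd hz hN hx' hy' hxy h1 h1' h2 h2' hne
  · have hm : (-(d : ℤ) - 1).natAbs = d + 1 := by omega
    rw [hm]
    exact loc_neg hd hwd hz hN hx' hy' hxy h1 h1' h2 h2' hne

end Pool.Agent.W2helper92.BT2
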