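import Pool.Agent.W2helper92.BT2.Loc

set_option autoImplicit false

/-!
# Project BT2, piece LOC in explicit form: the valuation of the ratio is a power of
`w x ^ (e - 1)`
-/

namespace Pool.Agent.W2helper92.BT2

open Pool.Agent.W2helper83.BT Polynomial

variable {K Γ : Type} [Field K] [LinearOrderedCommGroupWithZero Γ] {w : Valuation K Γ}

/-- the core of the case of bad reduction -/
lemma core_pow {d : ℕ} (hd : 2 ≤ d) (hwd : w (d : K) = 1) {z : K} (hz : IsPrimitiveRoot z d)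
    {f : K → K} {x y : K} {N : ℕ} (hN : 0 < N) (hx : f^[N] x = x) (hy : f^[N] y = y)
    (hxy : x ≠ y) {W : Γ} (hW : W ≠ 0) (hwx : ∀ k, w (f^[k] x) = W) (hwy : ∀ k, w (f^[k] y) = W)
    {g₀ : K} (hg₀ : g₀ ≠ 0) (hg1 : w g₀ < 1) {m : ℕ} (hm : m ≠ 0)
    (hprod : ∀ k, w ((f^[k] x) ^ d - (f^[k] y) ^ d) =
      w (f^[k + 1] x - f^[k + 1] y) * (w g₀) ^ m * W ^ (d - 1))
    {ζ₁ ζ₂ : K} (h1 : ζ₁ ^ d = 1) (h1' : ζ₁ ≠ 1) (h2 : ζ₂ ^ d = 1) (h2' : ζ₂ ≠ 1) :
    ∃ k : ℤ, w ((x - ζ₁ * y) / (x - ζ₂ * y)) = ((w g₀) ^ m) ^ k := by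
  have hd0 : 0 < d := by omega
  have hmem : ∀ η : K, η ∈ nthRootsFinset d (1 : K) ↔ η ^ d = 1 := fun η =>
    mem_nthRootsFinset hd0 1
  set T : Γ := (w g₀) ^ m with hT
  have hT1 : T < 1 := pow_lt_one₀ zero_le hg1 hm
  have hble : ∀ k, w (f^[k] x - f^[k] y) ≤ W := fun k => by
    refine (w.map_sub _ _).trans ?_
    rw [hwx, hwy, max_self]
  have hst := fun k => step hd hwd hz hW (hwx k) (hwy k) hT1 (hble (k + 1)) (hprod k)
  have hone : (1 : K) ∈ nthRootsFinset d (1 : K) := (hmem 1).2 (one_pow d)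
  -- the distances are powers
  have hrec : ∀ k, w (f^[k] x - f^[k] y) = W ∨
      w (f^[k] x - f^[k] y) = w (f^[k + 1] x - f^[k + 1] y) * T := by
    intro k
    obtain ⟨η₀, h0, h3, h4⟩ := hst k
    by_cases h : η₀ = 1
    · right
      rw [← h3, h, one_mul]
    · left
      have := h4 1 hone (fun h' => h h'.symm)
      rwa [one_mul] at this
  have hpow : ∀ k, ∃ j : ℕ, w (f^[k] x - f^[k] y) = T ^ j * W := by
    intro k
    by_contra hcon
    have hind : ∀ n, w (f^[k] x - f^[k] y) = w (f^[k + n] x - f^[k + n] y) * T ^ n ∧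
        ¬ ∃ j : ℕ, w (f^[k + n] x - f^[k + n] y) = T ^ j * W := by
      intro n
      induction n with
      | zero => exact ⟨by simp, hcon⟩
      | succ n ih =>
        obtain ⟨i1, i2⟩ := ih
        rcases hrec (k + n) with h | h
        · exact absurd ⟨0, by rw [h, pow_zero, one_mul]⟩ i2
        · refine ⟨?_, ?_⟩
          · rw [i1, h, pow_succ']
            rw [mul_assoc]
            rfl
          · rintro ⟨j, hj⟩
            apply i2
            refine ⟨j + 1, ?_⟩
            have hj' : w (f^[k + n + 1] x - f^[k + n + 1] y) = T ^ j * W := hj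
            rw [h, hj', pow_succ, mul_right_comm]
    obtain ⟨i1, -⟩ := hind N
    have e1 : f^[k + N] x = f^[k] x := by
      rw [Function.iterate_add_apply, hx]
    have e2 : f^[k + N] y = f^[k] y := by
      rw [Function.iterate_add_apply, hy]
    rw [e1, e2] at i1
    have hne : w (f^[k] x - f^[k] y) ≠ 0 :=
      (w.ne_zero_iff).2 (sub_ne_zero.2 (it_ne hN hx hy hxy k))
    have h5 : T ^ N = 1 := by
      have h6 : w (f^[k] x - f^[k] y) * T ^ N = w (f^[k] x - f^[k] y) * 1 := by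
        rw [← i1, mul_one]
      exact mul_left_cancel₀ hne h6
    have h7 : T ^ N < 1 := pow_lt_one₀ zero_le hT1 hN.ne'
    exact absurd h5 h7.ne
  have hall : ∀ η : K, η ^ d = 1 → ∃ j : ℕ, w (x - η * y) = T ^ j * W := by
    intro η hη
    obtain ⟨η₀, h0, h3, h4⟩ := hst 0
    by_cases h : η = η₀
    · obtain ⟨j, hj⟩ := hpow 1
      refine ⟨j + 1, ?_⟩
      have h3' : w (x - η₀ * y) = w (f^[1] x - f^[1] y) * T := h3
      rw [h, h3', hj, pow_succ, mul_right_comm]
    · refine ⟨0, ?_⟩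
      have h4' : w (x - η * y) = W := h4 η ((hmem η).2 hη) h
      rw [h4', pow_zero, one_mul]
  obtain ⟨j1, hj1⟩ := hall ζ₁ h1
  obtain ⟨j2, hj2⟩ := hall ζ₂ h2
  have hT0 : T ≠ 0 := pow_ne_zero _ ((w.ne_zero_iff).2 hg₀)
  refine ⟨(j1 : ℤ) - j2, ?_⟩
  rw [map_div₀, hj1, hj2, mul_div_mul_right _ _ hW, zpow_sub₀ hT0, zpow_natCast, zpow_natCast]

theorem loc_pow_pos {d : ℕ} (hd : 2 ≤ d) (hwd : w (d : K) = 1) {z : K} (hz : IsPrimitiveRoot z d)
    {c x y ζ₁ ζ₂ : K} {N : ℕ} (hN : 0 < N) (hx : (fz (d : ℤ) c)^[N] x = x)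
    (hy : (fz (d : ℤ) c)^[N] y = y) (hxy : x ≠ y) (h1 : ζ₁ ^ d = 1) (h1' : ζ₁ ≠ 1)
    (h2 : ζ₂ ^ d = 1) (h2' : ζ₂ ≠ 1) (hne : x - ζ₁ * y ≠ 0) :
    ∃ k : ℤ, w ((x - ζ₁ * y) / (x - ζ₂ * y)) = w x ^ (k * ((d : ℤ) - 1)) := by
  have hd0 : 0 < d := by omega
  rcases le_or_gt (w c) 1 with hc | hc
  · -- good reduction
    set F : K × K → K × K := fun P => (P.1 ^ d + c * P.2 ^ d, P.2 ^ d) with hF
    have hit : ∀ (u : K) (k : ℕ), F^[k] (u, 1) = ((fz (d : ℤ) c)^[k] u, 1) := by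
      intro u k
      induction k with
      | zero => rfl
      | succ k ih =>
        rw [Function.iterate_succ_apply', Function.iterate_succ_apply', ih, fz_nat]
        simp [hF]
    have hg : ∀ ζ : K, ζ ^ d = 1 → ζ ≠ 1 → w (x - ζ * y) = nn w (x, 1) * nn w (y, 1) := by
      intro ζ hζ hζ1
      have := good (w := w) hd hz (F := F)
        (by
          intro P Q
          congr 1
          simp only [hF]
          rw [mul_pow, mul_pow]
          ring)
        (fun P => nn_G (by omega) hc P) hN (P := (x, 1)) (Q := (y, 1)) (t := 1) (s := 1)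
        (by simpa using sub_ne_zero.2 hxy) one_ne_zero one_ne_zero
        (by rw [hit, hx, one_smul]) (by rw [hit, hy, one_smul]) hζ hζ1
      simpa using this
    refine ⟨0, ?_⟩
    rw [map_div₀, hg ζ₁ h1 h1', hg ζ₂ h2 h2', zero_mul, zpow_zero, div_self]
    rw [← hg ζ₁ h1 h1']
    exact (w.ne_zero_iff).2 hne
  · -- bad reduction
    have hwx0 : w x ^ d = w c := bad_pos hd hc hN hx
    have hwx : ∀ k, w ((fz (d : ℤ) c)^[k] x) = w x := by
      intro k
      have := bad_pos hd hc hN (it_per hx k)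
      rw [← hwx0] at this
      exact (pow_left_inj₀ zero_le zero_le hd0.ne').1 this
    have hwy : ∀ k, w ((fz (d : ℤ) c)^[k] y) = w x := by
      intro k
      have := bad_pos hd hc hN (it_per hy k)
      rw [← hwx0] at this
      exact (pow_left_inj₀ zero_le zero_le hd0.ne').1 this
    have hW1 : 1 < w x := by
      by_contra hcon
      rw [not_lt] at hcon
      have h3 : w x ^ d ≤ 1 := pow_le_one₀ zero_le hcon
      rw [hwx0] at h3
      exact absurd hc (not_lt.2 h3)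
    have hW0 : w x ≠ 0 := (zero_lt_one.trans hW1).ne'
    have hx0 : x ≠ 0 := (w.ne_zero_iff).1 hW0
    have key := core_pow hd hwd hz hN hx hy hxy hW0 hwx hwy (g₀ := x⁻¹) (inv_ne_zero hx0) ?_
      (m := d - 1) (by omega) ?_ h1 h1' h2 h2'
    · obtain ⟨k, hk⟩ := key
      refine ⟨-k, ?_⟩
      rw [hk, map_inv₀, ← zpow_natCast, ← zpow_mul, inv_zpow', Nat.cast_sub (by omega)]
      congr 1
      push_cast
      ring
    · rw [map_inv₀]
      exact inv_lt_one_of_one_lt₀ hW1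
    · intro k
      rw [Function.iterate_succ_apply', Function.iterate_succ_apply', fz_nat, fz_nat,
        add_sub_add_right_eq_sub, map_inv₀, mul_assoc, ← mul_pow, inv_mul_cancel₀ hW0, one_pow,
        mul_one]

theorem loc_pow_neg {d : ℕ} (hd : 2 ≤ d) (hwd : w (d : K) = 1) {z : K} (hz : IsPrimitiveRoot z d)
    {c x y ζ₁ ζ₂ : K} {N : ℕ} (hN : 0 < N) (hx : (fz (-(d : ℤ)) c)^[N] x = x)
    (hy : (fz (-(d : ℤ)) c)^[N] y = y) (hxy : x ≠ y) (h1 : ζ₁ ^ d = 1) (h1' : ζ₁ ≠ 1)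
    (h2 : ζ₂ ^ d = 1) (h2' : ζ₂ ≠ 1) (hne : x - ζ₁ * y ≠ 0) :
    ∃ k : ℤ, w ((x - ζ₁ * y) / (x - ζ₂ * y)) = w x ^ (k * (-(d : ℤ) - 1)) := by
  have hd0 : 0 < d := by omega
  rcases le_or_gt (w c) 1 with hc | hc
  · -- good reduction
    obtain ⟨k1, hk1, t1, ht1, e1⟩ := FN_it (by omega : d ≠ 0) c x N
    obtain ⟨k2, hk2, t2, ht2, e2⟩ := FN_it (by omega : d ≠ 0) c y N
    rw [hx] at e1
    rw [hy] at e2
    obtain ⟨s1, hs1, e1'⟩ := FN_mul ht1 e1 k2
    obtain ⟨s2, hs2, e2'⟩ := FN_mul ht2 e2 k1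
    rw [Nat.mul_comm k2 k1] at e2'
    have hg : ∀ ζ : K, ζ ^ d = 1 → ζ ≠ 1 → w (x - ζ * y) = nn w (x, 1) * nn w (y, 1) := by
      intro ζ hζ hζ1
      have := good (w := w) hd hz (F := FN d c)
        (by
          intro P Q
          have : (FN d c P).1 * (FN d c Q).2 - (FN d c Q).1 * (FN d c P).2 =
              -((P.1 * Q.2) ^ d - (Q.1 * P.2) ^ d) := by
            simp only [FN]
            rw [mul_pow, mul_pow]
            ring
          rw [this, Valuation.map_neg])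
        (fun P => by
          have := nn_G (w := w) (c := c) (by omega : d ≠ 0) hc (P.2, P.1)
          unfold FN
          simp only at this
          rw [this]
          unfold nn
          simp only
          rw [max_comm]) (Nat.mul_pos (hN.trans_le hk1) (hN.trans_le hk2))
        (P := (x, 1)) (Q := (y, 1)) (t := s1) (s := s2)
        (by simpa using sub_ne_zero.2 hxy) hs1 hs2 e1' e2' hζ hζ1
      simpa using this
    refine ⟨0, ?_⟩
    rw [map_div₀, hg ζ₁ h1 h1', hg ζ₂ h2 h2', zero_mul, zpow_zero, div_self]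
    rw [← hg ζ₁ h1 h1']
    exact (w.ne_zero_iff).2 hne
  · -- bad reduction
    have hsmall : ∀ a : Γ, a ^ d * w c = 1 → a < 1 := by
      intro a ha
      by_contra hcon
      rw [not_lt] at hcon
      have h3 : 1 < a ^ d * w c := by
        calc (1 : Γ) < w c := hc
          _ = 1 * w c := (one_mul _).symm
          _ ≤ a ^ d * w c := mul_le_mul' (one_le_pow₀ hcon) le_rfl
      rw [ha] at h3
      exact absurd h3 (lt_irrefl _)
    rcases bad_neg hd hc hN hx with hX | hX <;> rcases bad_neg hd hc hN hy with hY | hY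
    · exfalso
      have hdec : ∀ k, w ((fz (-(d : ℤ)) c)^[k + 1] x - (fz (-(d : ℤ)) c)^[k + 1] y) <
          w (x - y) := by
        intro k
        induction k with
        | zero => exact contract hd hc (hX 0) (hY 0) hxy
        | succ k ih =>
          rw [Function.iterate_succ_apply' _ (k + 1), Function.iterate_succ_apply' _ (k + 1)]
          exact (contract hd hc (hX _) (hY _) (it_ne hN hx hy hxy _)).trans ih
      have := hdec (N - 1)
      rw [Nat.sub_add_cancel hN, hx, hy] at this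
      exact absurd this (lt_irrefl _)
    · have hx1 : w x = w c := hX 0
      have hy1 : w y < 1 := hsmall _ (hY 0)
      have hval : ∀ ζ : K, ζ ^ d = 1 → w (x - ζ * y) = w x := by
        intro ζ hζ
        rw [sub_eq_add_neg, w.map_add_eq_of_lt_left]
        rw [Valuation.map_neg, map_mul, val_root w hd0.ne' hζ, one_mul, hx1]
        exact hy1.trans hc
      refine ⟨0, ?_⟩
      rw [map_div₀, hval ζ₁ h1, hval ζ₂ h2, zero_mul, zpow_zero, div_self]
      rw [← hval ζ₁ h1]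
      exact (w.ne_zero_iff).2 hne
    · have hy1 : w y = w c := hY 0
      have hx1 : w x < 1 := hsmall _ (hX 0)
      have hval : ∀ ζ : K, ζ ^ d = 1 → w (x - ζ * y) = w y := by
        intro ζ hζ
        have e : w (-(ζ * y)) = w y := by
          rw [Valuation.map_neg, map_mul, val_root w hd0.ne' hζ, one_mul]
        rw [sub_eq_add_neg, w.map_add_eq_of_lt_right, e]
        rw [e, hy1]
        exact hx1.trans hc
      refine ⟨0, ?_⟩
      rw [map_div₀, hval ζ₁ h1, hval ζ₂ h2, zero_mul, zpow_zero, div_self]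
      rw [← hval ζ₁ h1]
      exact (w.ne_zero_iff).2 hne
    · have hC0 : w c ≠ 0 := (zero_lt_one.trans hc).ne'
      have hx0 : w x ^ d * w c = 1 := hX 0
      have heq : ∀ a : Γ, a ^ d * w c = 1 → a = w x := by
        intro a ha
        rw [← hx0] at ha
        exact (pow_left_inj₀ zero_le zero_le hd0.ne').1 (mul_right_cancel₀ hC0 ha)
      have hW1 : w x < 1 := hsmall _ hx0
      have hW0 : w x ≠ 0 := by
        intro h
        rw [h, zero_pow hd0.ne', zero_mul] at hx0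
        exact zero_ne_one hx0
      have hwx : ∀ k, w ((fz (-(d : ℤ)) c)^[k] x) = w x := fun k => heq _ (hX k)
      have hwy : ∀ k, w ((fz (-(d : ℤ)) c)^[k] y) = w x := fun k => heq _ (hY k)
      have key := core_pow hd hwd hz hN hx hy hxy hW0 hwx hwy (g₀ := x) ((w.ne_zero_iff).1 hW0)
        hW1 (m := d + 1) (by omega) ?_ h1 h1' h2 h2'
      · obtain ⟨k, hk⟩ := key
        refine ⟨-k, ?_⟩
        rw [hk, ← zpow_natCast, ← zpow_mul]
        congr 1
        push_cast
        ring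
      intro k
      set u := (fz (-(d : ℤ)) c)^[k] x with hu
      set v := (fz (-(d : ℤ)) c)^[k] y with hv
      have hu0 : u ≠ 0 := (w.ne_zero_iff).1 (by rw [hwx k]; exact hW0)
      have hv0 : v ≠ 0 := (w.ne_zero_iff).1 (by rw [hwy k]; exact hW0)
      have e1 : u ^ d - v ^ d = -((fz (-(d : ℤ)) c u - fz (-(d : ℤ)) c v) * (u ^ d * v ^ d)) := by
        rw [fz_neg, fz_neg]
        have hu1 : u ^ d ≠ 0 := pow_ne_zero _ hu0
        have hv1 : v ^ d ≠ 0 := pow_ne_zero _ hv0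
        field_simp
        ring
      rw [Function.iterate_succ_apply', Function.iterate_succ_apply', ← hu, ← hv, e1,
        Valuation.map_neg, map_mul, map_mul, map_pow, map_pow, hwx k, hwy k, mul_assoc, ← pow_add,
        ← pow_add]
      congr 2
      omega

theorem loc_pow (K Γ : Type) [Field K] [LinearOrderedCommGroupWithZero Γ]
    (w : Valuation K Γ) (d : ℕ) (e : ℤ) (c x y ζ₁ ζ₂ : K) (hd : 2 ≤ d) (he : e = d ∨ e = -d)
    (hwd : w (d : K) = 1) (hz : ∃ ζ : K, IsPrimitiveRoot ζ d) (hx : PerZ e c x) (hy : PerZ e c y)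
    (hxy : x ≠ y) (h1 : ζ₁ ^ d = 1) (h1' : ζ₁ ≠ 1) (h2 : ζ₂ ^ d = 1) (h2' : ζ₂ ≠ 1)
    (hne : x - ζ₁ * y ≠ 0) :
    ∃ k : ℤ, w ((x - ζ₁ * y) / (x - ζ₂ * y)) = w x ^ (k * (e - 1)) := by
  obtain ⟨z, hz⟩ := hz
  obtain ⟨n1, hn1, hx⟩ := hx
  obtain ⟨n2, hn2, hy⟩ := hy
  have hx' := it_mul hx n2
  have hy' := it_mul hy n1
  rw [Nat.mul_comm n2 n1] at hy'
  have hN : 0 < n1 * n2 := Nat.mul_pos hn1 hn2
  rcases he with rfl | rfl
  · exact loc_pow_pos hd hwd hz hN hx' hy' hxy h1 h1' h2 h2' hne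
  · exact loc_pow_neg hd hwd hz hN hx' hy' hxy h1 h1' h2 h2' hne

end Pool.Agent.W2helper92.BT2
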